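import Pool.Agent.Y574.SK.B2

/-! Barriers for the energies of the tails during one stage
(after `Pool.Agent.Y363.EP.BAR1`). -/

open Set Filter Topology MeasureTheory

set_option autoImplicit false

namespace Pool.Agent.Y574.SK

open Pool.Agent.Y8.SK
open Pool.Agent.Y5.E (At Aw Ut Uw loc)
open Pool.Agent.Y5.F (vfk Yk Wk bar)
open Pool.Agent.Y6.S (Pe6 SysR Tk Rk)
open Pool.Agent.Y8.EP (EE EE_pos dd Pp Pn zz th bb nb Cur Low Ub GrowE)
open Pool.Agent.Y8.SK.Gd

/-- the square of the positive part is differentiable -/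
lemma hasDerivAt_maxsq (y : ℝ) : HasDerivAt (fun y : ℝ => max y 0 ^ 2) (2 * max y 0) y := by
  rcases lt_trichotomy y 0 with h | h | h
  · rw [max_eq_right h.le, mul_zero]
    have h1 : (fun y : ℝ => max y 0 ^ 2) =ᶠ[𝓝 y] fun _ => (0 : ℝ) := by
      filter_upwards [Iio_mem_nhds h] with z hz
      rw [max_eq_right (le_of_lt hz)]
      norm_num
    exact (hasDerivAt_const y (0 : ℝ)).congr_of_eventuallyEq h1
  · subst h
    rw [max_self, mul_zero, hasDerivAt_iff_isLittleO]
    simp only [max_self, ne_eq, OfNat.ofNat_ne_zero, not_false_eq_true, zero_pow, sub_zero,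
      smul_eq_mul, mul_zero]
    have h1 : (fun z : ℝ => z ^ 2) =o[𝓝 0] fun z : ℝ => z := by
      have := (Asymptotics.isLittleO_pow_pow (show 1 < 2 by norm_num) :
        (fun x : ℝ => x ^ 2) =o[𝓝 0] fun x => x ^ 1)
      simpa using this
    refine Asymptotics.IsBigO.trans_isLittleO ?_ h1
    refine Asymptotics.isBigO_of_le _ fun z => ?_
    rw [Real.norm_eq_abs, Real.norm_eq_abs, abs_of_nonneg (by positivity),
      abs_of_nonneg (by positivity)]
    rcases le_total z 0 with h | h
    · rw [max_eq_right h]; nlinarith [sq_nonneg z]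
    · rw [max_eq_left h]
  · rw [max_eq_left h.le]
    have h1 : (fun y : ℝ => max y 0 ^ 2) =ᶠ[𝓝 y] fun z => z ^ 2 := by
      filter_upwards [Ioi_mem_nhds h] with z hz
      rw [max_eq_left (le_of_lt hz)]
    have h2 : HasDerivAt (fun z : ℝ => z ^ 2) (2 * y) y := by
      have := hasDerivAt_pow 2 y
      simpa using this
    exact h2.congr_of_eventuallyEq h1

theorem t_BARY : Pool.Agent.Y8.SK.S_BARY := by
  intro κ lam N Q η L C ℓ B T x w f n σ t1 t b
  have g := b.g
  have h := b.h
  have hc := b.hc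
  have q := g.q
  have hσ0 := σnn h
  have htT : t < T := b.ht.2.trans_le hc.leT
  have hσt : σ n ≤ t := b.ht.1.le
  have hl := q.lamp
  have hPF : ∀ τ ∈ Icc (σ n) t, PF κ lam η L C T x w n τ := pf b
  have hsub : Icc (σ n) t ⊆ Ico 0 T := fun τ hτ => (hPF τ hτ).hI
  have hzp : ∀ τ ∈ Icc (σ n) t, 0 < zz C x n τ := fun τ hτ => by
    have := (hPF τ hτ).zlo
    have := q.Cp n
    linarith
  -- the shifted mode
  have hdr : ∀ τ ∈ Ioo (σ n) t, HasDerivAt (zz C x n) (deriv (zz C x n) τ) τ ∧
      985 / 10000 * (L n * zz C x n τ) ≤ deriv (zz C x n) τ := by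
    intro τ hτ
    obtain ⟨r', h1, h2⟩ := b.hd τ hτ
    rw [h1.deriv]
    exact ⟨h1, h2⟩
  have hzc : ContinuousOn (zz C x n) (Icc (σ n) t) := by
    have h1 : ContinuousOn (fun s => x (n + 1) s + C n) (Icc (σ n) t) :=
      ((g.cont (n + 1)).mono hsub).add continuousOn_const
    exact h1
  have hthc : ContinuousOn (th lam C x n) (Icc (σ n) t) := by
    have h1 : ContinuousOn (fun s => 1000 / 197 * lam * max (zz C x n s - 8952 / 10000) 0 ^ 2)
        (Icc (σ n) t) :=
      continuousOn_const.mul (((hzc.sub continuousOn_const).sup continuousOn_const).pow 2)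
    exact h1
  have hthd : ∀ τ ∈ Ioo (σ n) t, HasDerivAt (th lam C x n)
      (1000 / 197 * lam * (2 * max (zz C x n τ - 8952 / 10000) 0 * deriv (zz C x n) τ)) τ := by
    intro τ hτ
    have h1 : HasDerivAt (fun s => zz C x n s - 8952 / 10000) (deriv (zz C x n) τ) τ :=
      (hdr τ hτ).1.sub_const _
    have h2 := (hasDerivAt_maxsq (zz C x n τ - 8952 / 10000)).comp τ h1
    exact h2.const_mul (1000 / 197 * lam)
  have hthP : ∀ τ ∈ Ioo (σ n) t,
      L (n + 1) * (zz C x n τ * max (zz C x n τ - 8952 / 10000) 0) ≤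
      1000 / 197 * lam * (2 * max (zz C x n τ - 8952 / 10000) 0 * deriv (zz C x n) τ) := by
    intro τ hτ
    have h1 := (hdr τ hτ).2
    have h2 : 0 ≤ max (zz C x n τ - 8952 / 10000) 0 := le_max_right _ _
    have hL := q.Lp n
    rw [q.L_succ n]
    calc lam * L n * (zz C x n τ * max (zz C x n τ - 8952 / 10000) 0)
        = 1000 / 197 * lam * (2 * max (zz C x n τ - 8952 / 10000) 0 *
          (985 / 10000 * (L n * zz C x n τ))) := by ring
      _ ≤ _ := by gcongr
  -- induction over the levels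
  have hind : ∀ j : ℕ, ∀ τ ∈ Icc (σ n) t, √(Yk κ x w (n + 2 + j) τ) ≤ bb lam C x n j τ := by
    intro j
    induction j using Nat.strong_induction_on with
    | _ j ih =>
    have hH : ∀ τ ∈ Icc (σ n) t, Hj κ lam C x w n j τ := fun τ hτ i hi => ih i hi τ hτ
    have hexp : Real.exp (-(Pp (j + 1)) * lam) ≤ bb lam C x n j (σ n) := bb_ge q j
    have ej : n + 2 + j = n + 1 + j + 1 := by ring
    have key := ybar g (n + 1 + j) (α := σ n) (t := t)
      (B0 := Real.exp (-(Pp (j + 1)) * lam)) hσ0 htT (by positivity) hthc hthd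
      (fun τ hτ => by
        have hτ' : τ ∈ Icc (σ n) t := ⟨hτ.1.le, hτ.2.le⟩
        have hL := q.Lp (n + 1 + j)
        have k1 := src_le g (hPF τ hτ') (hH τ hτ')
        have k2 := loc_le g (hPF τ hτ') (hH τ hτ')
        have k3 := rate_le g (hPF τ hτ') j (hH τ hτ')
        have k4 := addt_le g (hPF τ hτ') (hH τ hτ')
        have k5 := hthP τ hτ
        have hbeq : bb lam C x n j τ = Real.exp (-(Pp (j + 1)) * lam) *
          Real.exp (th lam C x n τ) := rfl
        rw [← hbeq, ← ej]
        refine ⟨2 / 10 ^ 20 * L (n + 1 + j),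
          L (n + 1) * (zz C x n τ * max (zz C x n τ - 8952 / 10000) 0) -
            1 / 10 ^ 4 * L (n + 1 + j),
          1 / 10 ^ 15 * L (n + 1 + j), by positivity, ?_, k3, k4, ?_⟩
        · linarith
        · linarith)
      (by
        have h1 := h.tl (j + 1)
        rw [show n + 1 + (j + 1) = n + 1 + j + 1 by ring] at h1
        exact h1.trans hexp)
    intro τ hτ
    have := key τ hτ
    rw [ej]
    exact this
  exact fun τ hτ j => hind j τ hτ

end Pool.Agent.Y574.SK
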