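import Pool.Agent.Y8.SK.St

/-! Barriers for the energies of the tails during one stage: pointwise facts and a comparison
lemma (after `Pool.Agent.Y363.EP.B1`). -/

open Set Filter Topology MeasureTheory

set_option autoImplicit false

namespace Pool.Agent.Y574.SK

open Pool.Agent.Y8.SK
open Pool.Agent.Y5.E (At Aw Ut Uw loc)
open Pool.Agent.Y5.F (vfk Yk Wk bar)
open Pool.Agent.Y6.S (Pe6 SysR Tk Rk)
open Pool.Agent.Y8.EP (EE EE_pos dd Pp Pn zz th bb nb Cur Low Ub GrowE)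
open Pool.Agent.Y8.SK.Gd

/-- pointwise facts -/
structure PF (κ lam η : ℝ) (L C : ℕ → ℝ) (T : ℝ) (x w : ℕ → ℝ → ℝ) (n : ℕ) (τ : ℝ) :
    Prop where
  hI : τ ∈ Ico 0 T
  Xhi : |x n τ| ≤ 3 / 2
  Y1 : √(Yk κ x w (n + 1) τ) ≤ 1
  zlo : 3 / 4 * C n ≤ zz C x n τ
  zhi : zz C x n τ ≤ 1 + C n
  x1 : |x (n + 1) τ| ≤ zz C x n τ
  low : Low lam L x w n τ
  wn : w n τ ≤ dd lam
  W : ∀ p, w p τ ≤ 2 * η * bh lam C x n p τ

variable {κ lam N Q η : ℝ} {L C ℓ : ℕ → ℝ} {B : ℕ → ℕ → ℝ} {T : ℝ} {x w f : ℕ → ℝ → ℝ}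
variable {n : ℕ} {σ : ℕ → ℝ} {t1 t : ℝ}

lemma σnn (h : Stg κ lam η L T x w n σ) : 0 ≤ σ n := by
  have : ∀ i ≤ n, 0 ≤ σ i := by
    intro i
    induction i with
    | zero => intro _; rw [h.σ0]
    | succ i ih => intro hi; exact (ih (by omega)).trans (h.σlt i (by omega)).le
  exact this n le_rfl

/-- the bootstrap bound of the other modes holds up to the time `t` -/
lemma w_upto (b : BH κ lam N Q η L C ℓ B T x w f n σ t1 t) (p : ℕ) : ∀ τ ∈ Icc (σ n) t,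
    w p τ ≤ 2 * η * bh lam C x n p τ := by
  have g := b.g
  have h := b.h
  have hc := b.hc
  have hsub : Icc (σ n) t ⊆ Ico 0 T := fun τ hτ =>
    ⟨(σnn h).trans hτ.1, (hτ.2.trans_lt b.ht.2).trans_le hc.leT⟩
  have hcl : closure (Ico (σ n) t) = Icc (σ n) t := closure_Ico b.ht.1.ne
  have hzc : ContinuousOn (zz C x n) (Icc (σ n) t) := by
    have h1 : ContinuousOn (fun s => x (n + 1) s + C n) (Icc (σ n) t) :=
      ((g.cont (n + 1)).mono hsub).add continuousOn_const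
    exact h1
  have hbc : ContinuousOn (bh lam C x n p) (Icc (σ n) t) := by
    by_cases hp : p ≤ n + 1
    · refine continuousOn_const (c := (1 : ℝ)) |>.congr fun s _ => ?_
      exact bh_low hp
    · have h1 : ContinuousOn (fun s => Real.exp (-(Pp (p - (n + 2) + 1)) * lam) *
          Real.exp (1000 / 197 * lam * max (zz C x n s - 8952 / 10000) 0 ^ 2))
          (Icc (σ n) t) :=
        continuousOn_const.mul (continuousOn_const.mul
          (((hzc.sub continuousOn_const).sup continuousOn_const).pow 2)).rexp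
      refine h1.congr fun s _ => ?_
      rw [bh, if_neg hp, bb, th]
  intro τ hτ
  rw [← hcl] at hτ
  refine le_on_closure (s := Ico (σ n) t) (f := w p)
    (g := fun τ => 2 * η * bh lam C x n p τ) (fun s hs => ((b.hy s hs).W p).le) ?_ ?_ hτ
  · rw [hcl]
    exact (g.wcont p).mono hsub
  · rw [hcl]
    exact continuousOn_const.mul hbc

lemma pf (b : BH κ lam N Q η L C ℓ B T x w f n σ t1 t) : ∀ τ ∈ Icc (σ n) t,
    PF κ lam η L C T x w n τ := by
  intro τ hτ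
  have g := b.g
  have h := b.h
  have hc := b.hc
  have hτ1 : τ ∈ Ico (σ n) t1 := ⟨hτ.1, hτ.2.trans_lt b.ht.2⟩
  have hI : τ ∈ Ico 0 T := ⟨(σnn h).trans hτ.1, hτ1.2.trans_le hc.leT⟩
  obtain ⟨hY, hX⟩ := hc.act τ hτ1
  have hCp := g.q.Cp n
  have hXhi : |x n τ| ≤ 3 / 2 := (g.x_le hI n).trans (b.ub.Y n le_rfl τ hτ1)
  have hsY : √(Yk κ x w (n + 1) τ) ≤ 1 := Real.sqrt_le_one.2 hY.le
  have hx1 : |x (n + 1) τ| ≤ 1 := (g.x_le hI (n + 1)).trans hsY
  have hr : -(C n / 4) ≤ x (n + 1) τ := by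
    rcases hτ.2.eq_or_lt with h1 | h1
    · rw [h1]
      have := b.hr
      rw [zz] at this
      linarith
    · exact (b.hy τ ⟨hτ.1, h1⟩).r.le
  have hr2 : x (n + 1) τ ≤ 1 := (le_abs_self _).trans hx1
  refine ⟨hI, hXhi, hsY, ?_, ?_, ?_, b.ub.low n le_rfl τ hτ1, b.ub.w n le_rfl τ hτ1,
    fun p => w_upto b p τ hτ⟩
  · rw [zz]; linarith
  · rw [zz]; linarith
  · rw [zz, abs_le]
    constructor <;> linarith

/-- comparison for the energies of the tails -/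
lemma ybar (g : Gd κ lam N Q η L C ℓ B T x w f) (m : ℕ) {α t B0 : ℝ} (h0 : 0 ≤ α) (ht : t < T)
    (hB : 0 < B0) {θ θ' : ℝ → ℝ} (hc : ContinuousOn θ (Icc α t))
    (hd : ∀ τ ∈ Ioo α t, HasDerivAt θ (θ' τ) τ)
    (hs : ∀ τ ∈ Ioo α t, ∃ c1 c2 c3 : ℝ, 0 ≤ c1 ∧
      src L C x (m + 1) τ + N * loc L x w (m + 1) τ ≤ c1 * (B0 * Real.exp (θ τ)) ∧
      1001 / 1000 * Ut L x (m + 1) τ + N * Uw L w (m + 1) τ
        - 8999 / 10000 * (L (m + 1) / lam) ≤ c2 ∧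
      (B0 * Real.exp (θ τ) ≤ √(Yk κ x w (m + 1) τ) →
        addt κ lam N Q L x w (m + 1) τ ≤ c3 * Yk κ x w (m + 1) τ) ∧
      2 * c1 + 2 * c2 + c3 ≤ 2 * θ' τ)
    (h : √(Yk κ x w (m + 1) α) ≤ B0 * Real.exp (θ α)) :
    ∀ τ ∈ Icc α t, √(Yk κ x w (m + 1) τ) ≤ B0 * Real.exp (θ τ) := by
  intro τ hτ
  have hsub : Icc α t ⊆ Ico 0 T := fun τ hτ => ⟨h0.trans hτ.1, hτ.2.trans_lt ht⟩
  have e2 : ∀ s, (B0 * Real.exp (θ s)) ^ 2 = B0 ^ 2 * Real.exp (2 * θ s) := by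
    intro s
    rw [mul_pow, ← Real.exp_nat_mul]
    norm_num
  have h1 := bar (φ := Yk κ x w (m + 1)) (φ' := fun τ => deriv (Yk κ x w (m + 1)) τ)
    (th := fun s => 2 * θ s) (th' := fun s => 2 * θ' s) (K := B0 ^ 2) (a := α) (b := τ) hτ.1
    (by positivity) ((g.Ycont (m + 1)).mono ((Icc_subset_Icc_right hτ.2).trans hsub))
    ((hc.mono (Icc_subset_Icc_right hτ.2)).const_smul (2 : ℝ) |>.congr fun s _ => by
      simp [smul_eq_mul])
    (fun s hs' => by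
      have hsI : s ∈ Ioo α t := ⟨hs'.1, hs'.2.trans_le hτ.2⟩
      obtain ⟨D, hD, _⟩ := g.dYu m (hsub ⟨hsI.1.le, hsI.2.le⟩)
      have h2 := hD.hasDerivAt (Ico_mem_nhds (h0.trans_lt hsI.1) (hsI.2.trans ht))
      rw [h2.deriv]; exact h2)
    (fun s hs' => (hd s ⟨hs'.1, hs'.2.trans_le hτ.2⟩).const_mul 2)
    (fun s hs' hlt => by
      have hsI : s ∈ Ioo α t := ⟨hs'.1, hs'.2.trans_le hτ.2⟩
      obtain ⟨D, hD, hDle⟩ := g.dYu m (hsub ⟨hsI.1.le, hsI.2.le⟩)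
      have h2 := hD.hasDerivAt (Ico_mem_nhds (h0.trans_lt hsI.1) (hsI.2.trans ht))
      rw [h2.deriv]
      refine hDle.trans ?_
      obtain ⟨c1, c2, c3, hc1, hA, hU, hadd, hsum⟩ := hs s hsI
      have hY0 := g.Y_nonneg (m + 1) s
      set β := B0 * Real.exp (θ s) with hβ
      have hβp : 0 < β := by positivity
      have hlt' : β ^ 2 < Yk κ x w (m + 1) s := by rw [e2]; exact hlt
      have hq : β ≤ √(Yk κ x w (m + 1) s) := Real.le_sqrt_of_sq_le hlt'.le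
      have hq0 := Real.sqrt_nonneg (Yk κ x w (m + 1) s)
      have hqq : √(Yk κ x w (m + 1) s) * √(Yk κ x w (m + 1) s) = Yk κ x w (m + 1) s :=
        Real.mul_self_sqrt hY0
      have s1 : 2 * (src L C x (m + 1) s + N * loc L x w (m + 1) s) * √(Yk κ x w (m + 1) s) ≤
          2 * c1 * Yk κ x w (m + 1) s := by
        calc 2 * (src L C x (m + 1) s + N * loc L x w (m + 1) s) * √(Yk κ x w (m + 1) s)
            ≤ 2 * (c1 * β) * √(Yk κ x w (m + 1) s) := by gcongr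
          _ ≤ 2 * (c1 * √(Yk κ x w (m + 1) s)) * √(Yk κ x w (m + 1) s) := by gcongr
          _ = 2 * c1 * (√(Yk κ x w (m + 1) s) * √(Yk κ x w (m + 1) s)) := by ring
          _ = _ := by rw [hqq]
      have s2 : 2 * (1001 / 1000 * Ut L x (m + 1) s + N * Uw L w (m + 1) s
          - 8999 / 10000 * (L (m + 1) / lam)) * Yk κ x w (m + 1) s ≤
          2 * c2 * Yk κ x w (m + 1) s := by gcongr
      have s3 : addt κ lam N Q L x w (m + 1) s ≤ c3 * Yk κ x w (m + 1) s := hadd hq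
      have s4 : Yk κ x w (m + 1) s * (2 * c1 + 2 * c2 + c3) ≤
          Yk κ x w (m + 1) s * (2 * θ' s) := by gcongr
      linarith)
    (by
      have hY0 := g.Y_nonneg (m + 1) α
      show Yk κ x w (m + 1) α ≤ B0 ^ 2 * Real.exp (2 * θ α)
      rw [← e2]
      have h3 := Real.sq_sqrt hY0
      rw [← h3]
      gcongr)
  have h2 : Yk κ x w (m + 1) τ ≤ (B0 * Real.exp (θ τ)) ^ 2 := by rw [e2]; exact h1
  exact (Real.sqrt_le_left (by positivity)).2 h2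

end Pool.Agent.Y574.SK
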