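import Pool.Agent.Y574.SK.B1

/-! Barriers for the energies of the tails during one stage: the estimates at the level
`n + 2 + j` (after `Pool.Agent.Y363.EP.B2`). -/

open Set Filter Topology MeasureTheory

set_option autoImplicit false

namespace Pool.Agent.Y574.SK

open Pool.Agent.Y8.SK
open Pool.Agent.Y5.E (At Aw Ut Uw loc)
open Pool.Agent.Y5.F (vfk Yk Wk bar)
open Pool.Agent.Y6.S (Pe6 SysR Tk Rk)
open Pool.Agent.Y8.EP (EE EE_pos dd Pp Pn zz th bb nb Cur Low Ub GrowE)
open Pool.Agent.Y8.SK.Gd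

variable {κ lam N Q η : ℝ} {L C ℓ : ℕ → ℝ} {B : ℕ → ℕ → ℝ} {T : ℝ} {x w f : ℕ → ℝ → ℝ}
variable {n : ℕ} {σ : ℕ → ℝ} {t1 t : ℝ}

lemma tiny (q : Pe6 κ lam N L C ℓ B) (c : ℝ) (hc0 : 0 ≤ c) (hc : c ≤ 10 ^ 45) {α : ℝ}
    (h : (2 : ℝ) / 10 ^ 7 + α ≤ -(1 / 10 ^ 6)) :
    c * N * Real.exp (α * lam) ≤ 1 / 10 ^ 20 := by
  have h1 := q.EE_small 2 (α := α) (by push_cast; exact h)
  have h2 := q.NE
  have h3 := q.N_one
  have h6 := q.EE_big
  have h7 := EE_pos lam
  refine le_trans ?_ h1
  have h8 : c ≤ EE lam := hc.trans h6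
  calc c * N * Real.exp (α * lam)
      ≤ EE lam * EE lam * Real.exp (α * lam) := by gcongr
    _ = _ := by ring

lemma tiny2 (q : Pe6 κ lam N L C ℓ B) (c : ℝ) (hc0 : 0 ≤ c) (hc : c ≤ 10 ^ 45) {α : ℝ}
    (h : (2 : ℝ) / 10 ^ 7 + α ≤ -(1 / 10 ^ 6)) :
    c * lam * Real.exp (α * lam) ≤ 1 / 10 ^ 20 := by
  have h1 := q.EE_small 2 (α := α) (by push_cast; exact h)
  have h2 := q.EE_lam
  have h3 := q.lamp
  have h6 := q.EE_big
  have h7 := EE_pos lam
  refine le_trans ?_ h1
  have h8 : c ≤ EE lam := hc.trans h6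
  have h9 : lam ≤ EE lam := by linarith
  calc c * lam * Real.exp (α * lam)
      ≤ EE lam * EE lam * Real.exp (α * lam) := by gcongr
    _ = _ := by ring

lemma dd_le (q : Pe6 κ lam N L C ℓ B) : dd lam ≤ 1 / 10 ^ 20 := q.exp_small (by norm_num)

lemma ee (a b lam : ℝ) : Real.exp (a * lam) * Real.exp (b * lam) = Real.exp ((a + b) * lam) := by
  rw [← Real.exp_add]; congr 1; ring

lemma bb_prev (lam : ℝ) (C : ℕ → ℝ) (x : ℕ → ℝ → ℝ) (n i : ℕ) (t : ℝ) :
    bb lam C x n i t = Real.exp (558 / 10000 * lam) * bb lam C x n (i + 1) t := by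
  have e : Real.exp (-(Pp (i + 1)) * lam) =
      Real.exp (558 / 10000 * lam) * Real.exp (-(Pp (i + 1 + 1)) * lam) := by
    rw [← Real.exp_add]
    congr 1
    rw [Pp, Pp]
    push_cast
    ring
  rw [bb, bb, e]
  ring

lemma bb_tiny (q : Pe6 κ lam N L C ℓ B) (p : PF κ lam η L C T x w n t) (j : ℕ) :
    bb lam C x n j t ≤ 1 / 10 ^ 20 := by
  refine (bb_le q p.zhi j).trans ?_
  apply q.exp_small
  rw [Pp]
  have : (0 : ℝ) ≤ j := Nat.cast_nonneg j
  linarith

/-- hypotheses at the level `j` -/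
def Hj (κ lam : ℝ) (C : ℕ → ℝ) (x w : ℕ → ℝ → ℝ) (n j : ℕ) (t : ℝ) : Prop :=
  ∀ i < j, √(Yk κ x w (n + 2 + i) t) ≤ bb lam C x n i t

lemma Hj.mono {j j' : ℕ} (H : Hj κ lam C x w n j t) (h : j' ≤ j) : Hj κ lam C x w n j' t :=
  fun i hi => H i (by omega)

section lev

variable (g : Gd κ lam N Q η L C ℓ B T x w f) (p : PF κ lam η L C T x w n t)
include g p

lemma w1_le : w (n + 1) t ≤ dd lam := by
  have h1 := p.W (n + 1)
  rw [bh_low le_rfl, mul_one] at h1
  exact h1.trans g.η_dd2

lemma wt_le (i : ℕ) : w (n + 2 + i) t ≤ dd lam * bb lam C x n i t := by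
  have h1 := p.W (n + 2 + i)
  rw [bh_tail] at h1
  have h2 := g.η_dd2
  have hb := bb_pos lam C x n i t
  refine h1.trans ?_
  gcongr

lemma wn1 : |x (n + 1) t| ≤ 1 := (g.x_le p.hI (n + 1)).trans p.Y1

lemma z1_le : |x (n + 1) t| + w (n + 1) t ≤ 11 / 10 := by
  have h1 := wn1 g p
  have h2 := w1_le g p
  have h3 := dd_le g.q
  linarith

lemma z0_le : |x n t| + w n t ≤ 151 / 100 := by
  have h1 := p.Xhi
  have h2 := p.wn
  have h3 := dd_le g.q
  linarith

lemma zz_le {i : ℕ} {j : ℕ} (H : Hj κ lam C x w n j t) (hi : i < j) :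
    |x (n + 2 + i) t| + w (n + 2 + i) t ≤ 2 * bb lam C x n i t := by
  have h1 := (g.x_le p.hI (n + 2 + i)).trans (H i hi)
  have h2 := wt_le g p i
  have h3 := dd_le g.q
  have hb := bb_pos lam C x n i t
  have h4 : dd lam * bb lam C x n i t ≤ 1 * bb lam C x n i t := by
    gcongr
    linarith
  linarith

lemma A1_le : At lam x w (n + 1) t ≤ 16 / 10 := by
  have h1 := p.low.A
  have q := g.q
  have hs := q.sq_lam
  have hs0 := q.sq_lam0
  have hz := z0_le g p
  have hA0 := g.A_nonneg p.hI n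
  rw [A_succ]
  have h2 : (√lam)⁻¹ * At lam x w n t ≤ 1 / 10 ^ 15 * (1501 / 1000) := by gcongr
  linarith

lemma Aj_le (j : ℕ) (H : Hj κ lam C x w n j t) : At lam x w (n + 2 + j) t ≤ 2 := by
  have q := g.q
  have hs := q.sq_lam
  have hs0 := q.sq_lam0
  induction j with
  | zero =>
    have h1 := A1_le g p
    have hz := z1_le g p
    have hA0 := g.A_nonneg p.hI (n + 1)
    rw [add_zero, show n + 2 = n + 1 + 1 by ring, A_succ]
    have h2 : (√lam)⁻¹ * At lam x w (n + 1) t ≤ 1 / 10 ^ 15 * (16 / 10) := by gcongr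
    linarith
  | succ j ih =>
    have h1 := ih (H.mono (Nat.le_succ j))
    have h2 := zz_le g p H (Nat.lt_succ_self j)
    have h3 := bb_tiny q p j
    have hA0 := g.A_nonneg p.hI (n + 2 + j)
    rw [show n + 2 + (j + 1) = n + 2 + j + 1 by ring, A_succ]
    have h4 : (√lam)⁻¹ * At lam x w (n + 2 + j) t ≤ 1 / 10 ^ 15 * 2 := by gcongr
    linarith

omit p in
lemma Lprev (j : ℕ) : L (n + 2 + j) = lam * L (n + 1 + j) := by
  rw [show n + 2 + j = n + 1 + j + 1 by ring, g.q.L_succ]

omit p in
lemma Ldiv (m : ℕ) : L m ≤ 1 / 10 ^ 30 * L (m + 1) := by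
  have q := g.q
  have h1 := q.lam_big
  have h2 := q.Lp m
  rw [q.L_succ]
  nlinarith

omit p in
lemma Ldivl (m : ℕ) : L m / lam ≤ L m := by
  have q := g.q
  have h1 := q.lam1
  have h2 := q.Lp m
  rw [div_le_iff₀ q.lamp]
  nlinarith

lemma U2_le : Ut L x (n + 2) t ≤ L (n + 1) * zz C x n t + 4 / 10 ^ 30 * L (n + 1) := by
  have q := g.q
  have hL := q.Lp n
  have hL1 := q.Lp (n + 1)
  rw [show n + 2 = n + 1 + 1 by ring, U_succ, U_succ]
  have h1 := p.low.U
  have h2 : L (n + 1) * |x (n + 1) t| ≤ L (n + 1) * zz C x n t := by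
    gcongr
    exact p.x1
  have h3 : L n * |x n t| ≤ L n * (3 / 2) := by
    gcongr
    exact p.Xhi
  have h4 := Ldiv g n
  have h5 := Ldivl g n
  linarith

lemma zle : zz C x n t ≤ 101 / 100 := by
  have := p.zhi
  have := g.q.C_small n
  linarith

lemma Uj_le (j : ℕ) (H : Hj κ lam C x w n j t) : Ut L x (n + 2 + j) t ≤ 2 * L (n + 1 + j) := by
  have q := g.q
  induction j with
  | zero =>
    have h1 := U2_le g p
    have h2 := zle g p
    have hL1 := q.Lp (n + 1)
    rw [add_zero, add_zero]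
    have h3 : L (n + 1) * zz C x n t ≤ L (n + 1) * (101 / 100) := by gcongr
    linarith
  | succ j ih =>
    have h1 := ih (H.mono (Nat.le_succ j))
    have h2 := (g.x_le p.hI (n + 2 + j)).trans (H j (Nat.lt_succ_self j))
    have h3 := bb_tiny q p j
    have hL := q.Lp (n + 2 + j)
    rw [show n + 2 + (j + 1) = n + 2 + j + 1 by ring, U_succ]
    have h4 := Ldiv g (n + 1 + j)
    rw [show n + 1 + j + 1 = n + 2 + j by ring] at h4
    have h5 : L (n + 2 + j) * |x (n + 2 + j) t| ≤ L (n + 2 + j) * (1 / 10 ^ 20) := by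
      gcongr
      linarith
    rw [show n + 1 + (j + 1) = n + 2 + j by ring]
    linarith

lemma Uj1_le (j : ℕ) (H : Hj κ lam C x w n (j + 1) t) :
    Ut L x (n + 2 + (j + 1)) t ≤ 1 / 100 * L (n + 1 + (j + 1)) := by
  have q := g.q
  have h1 := Uj_le g p j (H.mono (Nat.le_succ j))
  have h2 := (g.x_le p.hI (n + 2 + j)).trans (H j (Nat.lt_succ_self j))
  have h3 := bb_tiny q p j
  have hL := q.Lp (n + 2 + j)
  rw [show n + 2 + (j + 1) = n + 2 + j + 1 by ring, U_succ]
  have h4 := Ldiv g (n + 1 + j)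
  rw [show n + 1 + j + 1 = n + 2 + j by ring] at h4
  have h5 : L (n + 2 + j) * |x (n + 2 + j) t| ≤ L (n + 2 + j) * (1 / 10 ^ 20) := by
    gcongr
    linarith
  rw [show n + 1 + (j + 1) = n + 2 + j by ring]
  linarith

lemma Wj_le (j : ℕ) : Uw L w (n + 2 + j) t ≤ 2 * dd lam * L (n + 1 + j) := by
  have q := g.q
  have hd := dd_pos lam
  induction j with
  | zero =>
    have h1 := p.low.Uw
    have h2 := p.wn
    have h3 := w1_le g p
    have hL := q.Lp n
    have hL1 := q.Lp (n + 1)
    rw [add_zero, add_zero, show n + 2 = n + 1 + 1 by ring, Uw_succ, Uw_succ]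
    have h4 : L n * w n t ≤ L n * dd lam := by gcongr
    have h5 : L (n + 1) * w (n + 1) t ≤ L (n + 1) * dd lam := by gcongr
    have h6 := Ldiv g n
    have h7 := Ldivl g n
    have h8 : 2 * dd lam * (L n / lam) ≤ 2 * dd lam * L n := by gcongr
    have h9 : dd lam * L n ≤ dd lam * (1 / 10 ^ 30 * L (n + 1)) := by gcongr
    have h10 : 0 < dd lam * L (n + 1) := by positivity
    linarith
  | succ j ih =>
    have h2 := wt_le g p j
    have h3 := bb_tiny q p j
    have hL := q.Lp (n + 2 + j)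
    have hb := bb_pos lam C x n j t
    rw [show n + 2 + (j + 1) = n + 2 + j + 1 by ring, Uw_succ]
    have h4 := Ldiv g (n + 1 + j)
    rw [show n + 1 + j + 1 = n + 2 + j by ring] at h4
    have h5 : L (n + 2 + j) * w (n + 2 + j) t ≤ L (n + 2 + j) * (dd lam * 1) := by
      gcongr
      refine h2.trans ?_
      gcongr
      linarith
    have h6 : dd lam * L (n + 1 + j) ≤ dd lam * (1 / 10 ^ 30 * L (n + 2 + j)) := by gcongr
    have h10 : 0 < dd lam * L (n + 2 + j) := by positivity
    rw [show n + 1 + (j + 1) = n + 2 + j by ring]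
    linarith

lemma NW_le (j : ℕ) :
    N * Uw L w (n + 2 + j) t ≤ 1 / 10 ^ 20 * L (n + 1 + j) := by
  have q := g.q
  have h1 := Wj_le g p j
  have h2 := tiny q 2 (by norm_num) (by norm_num) (α := -(1 / 2)) (by norm_num)
  have hN := q.N_one
  have hL := q.Lp (n + 1 + j)
  calc N * Uw L w (n + 2 + j) t ≤ N * (2 * dd lam * L (n + 1 + j)) := by gcongr
    _ = (2 * N * Real.exp (-(1 / 2) * lam)) * L (n + 1 + j) := by rw [dd]; ring
    _ ≤ _ := by gcongr

/-- the preceding group -/
lemma zprev {j : ℕ} (H : Hj κ lam C x w n j t) :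
    |x (n + 1 + j) t| + w (n + 1 + j) t ≤
      2 * Real.exp (598 / 10000 * lam) * bb lam C x n j t := by
  have q := g.q
  have hl := q.lamp
  rcases j with _ | i
  · have h1 := z1_le g p
    have h2 := bb_ge (C := C) (x := x) (n := n) (t := t) q 0
    have h3 : Real.exp (598 / 10000 * lam) * Real.exp (-(Pp (0 + 1)) * lam) = 1 := by
      rw [← Real.exp_add, Real.exp_eq_one_iff, Pp]
      push_cast
      ring
    have h4 : 1 ≤ Real.exp (598 / 10000 * lam) * bb lam C x n 0 t := by
      rw [← h3]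
      gcongr
    rw [add_zero]
    linarith
  · have h1 := zz_le g p H (Nat.lt_succ_self i)
    have hb := bb_pos lam C x n (i + 1) t
    rw [show n + 1 + (i + 1) = n + 2 + i by ring]
    rw [bb_prev] at h1
    have h2 : Real.exp (558 / 10000 * lam) ≤ Real.exp (598 / 10000 * lam) :=
      Real.exp_le_exp.2 (by linarith)
    have h3 : Real.exp (558 / 10000 * lam) * bb lam C x n (i + 1) t ≤
      Real.exp (598 / 10000 * lam) * bb lam C x n (i + 1) t := by gcongr
    linarith

/-- sources -/
lemma src_le {j : ℕ} (H : Hj κ lam C x w n j t) :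
    src L C x (n + 2 + j) t ≤ 1 / 10 ^ 20 * L (n + 1 + j) * bb lam C x n j t := by
  have q := g.q
  have hl := q.lamp
  have hL := q.Lp (n + 1 + j)
  have hb := bb_pos lam C x n j t
  rw [src, if_neg (by omega : ¬ n + 2 + j = 0), show n + 2 + j - 1 = n + 1 + j by omega]
  have hC := q.C_hi (n + 1 + j)
  have hCp := q.Cp (n + 1 + j)
  rcases j with _ | i
  · have h1 : x (n + 1) t ^ 2 ≤ 1 := by
      rw [← sq_abs]
      exact pow_le_one₀ (abs_nonneg _) (wn1 g p)
    have h2 := bb_ge (C := C) (x := x) (n := n) (t := t) q 0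
    have h3 : Real.exp (-(599 / 10000) * lam) =
        Real.exp (-(1 / 10000) * lam) * Real.exp (-(Pp (0 + 1)) * lam) := by
      rw [← Real.exp_add]
      congr 1
      rw [Pp]
      push_cast
      ring
    have h4 : Real.exp (-(1 / 10000) * lam) ≤ 1 / 10 ^ 20 := q.exp_small (by norm_num)
    rw [add_zero] at *
    calc L (n + 1) * C (n + 1) * x (n + 1) t ^ 2
        ≤ L (n + 1) * Real.exp (-(599 / 10000) * lam) * 1 := by gcongr
      _ = Real.exp (-(1 / 10000) * lam) * L (n + 1) * Real.exp (-(Pp (0 + 1)) * lam) := by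
          rw [h3]; ring
      _ ≤ _ := by gcongr
  · have e0 : n + 1 + (i + 1) = n + 2 + i := by ring
    rw [e0] at hL hC hCp ⊢
    have hx := (g.x_le p.hI (n + 2 + i)).trans (H i (Nat.lt_succ_self i))
    have hbi := bb_pos lam C x n i t
    have hbt := bb_tiny q p i
    have h1 : x (n + 2 + i) t ^ 2 ≤ bb lam C x n i t * bb lam C x n i t := by
      rw [← sq_abs, sq]
      gcongr
    have h4 : Real.exp (-(41 / 10000) * lam) ≤ 1 / 10 ^ 20 := q.exp_small (by norm_num)
    have h5 := ee (-(599 / 10000)) (558 / 10000) lam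
    have h6 : (-(599 / 10000) + 558 / 10000 : ℝ) = -(41 / 10000) := by norm_num
    rw [h6] at h5
    calc L (n + 2 + i) * C (n + 2 + i) * x (n + 2 + i) t ^ 2
        ≤ L (n + 2 + i) * Real.exp (-(599 / 10000) * lam) *
          (1 * bb lam C x n i t) := by
          gcongr
          refine h1.trans ?_
          gcongr
          linarith
      _ = (Real.exp (-(599 / 10000) * lam) * Real.exp (558 / 10000 * lam)) * L (n + 2 + i) *
          bb lam C x n (i + 1) t := by rw [bb_prev lam C x n i]; ring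
      _ = Real.exp (-(41 / 10000) * lam) * L (n + 2 + i) * bb lam C x n (i + 1) t := by rw [h5]
      _ ≤ _ := by gcongr

/-- local terms -/
lemma loc_le {j : ℕ} (H : Hj κ lam C x w n j t) :
    N * loc L x w (n + 2 + j) t ≤ 1 / 10 ^ 20 * L (n + 1 + j) * bb lam C x n j t := by
  have q := g.q
  have hl := q.lamp
  have hL := q.Lp (n + 1 + j)
  have hb := bb_pos lam C x n j t
  have hN := q.N_one
  have hd := dd_pos lam
  have hdt := dd_le q
  have h0 := z0_le g p
  have h1 := z1_le g p
  have hw0 := g.sy.w0 n t p.hI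
  have hw10 := g.sy.w0 (n + 1) t p.hI
  have hwn := p.wn
  have hw1 := w1_le g p
  rw [loc, if_neg (by omega : ¬ n + 2 + j = 0), show n + 2 + j - 1 = n + 1 + j by omega,
    show n + 2 + j - 2 = n + j by omega]
  rcases j with _ | _ | i
  · have h2 := bb_ge (C := C) (x := x) (n := n) (t := t) q 0
    have h3 : dd lam = Real.exp (-(4402 / 10000) * lam) * Real.exp (-(Pp (0 + 1)) * lam) := by
      rw [← Real.exp_add, dd]
      congr 1
      rw [Pp]
      push_cast
      ring
    have h4 := tiny q 6 (by norm_num) (by norm_num) (α := -(4402 / 10000)) (by norm_num)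
    simp only [add_zero] at *
    calc N * (L (n + 1) * ((|x (n + 1) t| + w (n + 1) t + |x n t| + w n t) *
          (w (n + 1) t + w n t)))
        ≤ N * (L (n + 1) * (3 * (2 * dd lam))) := by
          gcongr
          · linarith
          · linarith
      _ = (6 * N * Real.exp (-(4402 / 10000) * lam)) * L (n + 1) *
          Real.exp (-(Pp (0 + 1)) * lam) := by nth_rewrite 1 [h3]; ring
      _ ≤ _ := by gcongr
  · have h2 := bb_ge (C := C) (x := x) (n := n) (t := t) q 1
    have h3 : dd lam = Real.exp (-(3844 / 10000) * lam) * Real.exp (-(Pp (1 + 1)) * lam) := by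
      rw [← Real.exp_add, dd]
      congr 1
      rw [Pp]
      push_cast
      ring
    have h4 := tiny q 6 (by norm_num) (by norm_num) (α := -(3844 / 10000)) (by norm_num)
    have h5 := zz_le g p H (show 0 < 0 + 1 by omega)
    have h6 := bb_tiny q p 0
    have h7 := wt_le g p 0
    have h8 : dd lam * bb lam C x n 0 t ≤ dd lam * 1 := by
      gcongr
      linarith
    have hw20 := g.sy.w0 (n + 2) t p.hI
    rw [add_zero] at h5 h7
    rw [show n + 1 + (0 + 1) = n + 2 by ring, show n + (0 + 1) = n + 1 by ring] at *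
    rw [zero_add] at *
    calc N * (L (n + 2) * ((|x (n + 2) t| + w (n + 2) t + |x (n + 1) t| + w (n + 1) t) *
          (w (n + 2) t + w (n + 1) t)))
        ≤ N * (L (n + 2) * (3 * (2 * dd lam))) := by
          gcongr
          · linarith
          · linarith
      _ = (6 * N * Real.exp (-(3844 / 10000) * lam)) * L (n + 2) *
          Real.exp (-(Pp (1 + 1)) * lam) := by nth_rewrite 1 [h3]; ring
      _ ≤ _ := by gcongr
  · have h5 := zz_le g p H (show i < i + 1 + 1 by omega)
    have h6 := zz_le g p H (show i + 1 < i + 1 + 1 by omega)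
    have h7 := wt_le g p i
    have h8 := wt_le g p (i + 1)
    have hbi := bb_pos lam C x n i t
    have hbt := bb_tiny q p i
    have hbi1 := bb_pos lam C x n (i + 1) t
    have hmono : bb lam C x n (i + 1) t ≤ bb lam C x n i t := by
      rw [bb_prev lam C x n i]
      have : 1 ≤ Real.exp (558 / 10000 * lam) := Real.one_le_exp (by positivity)
      nlinarith
    have hw20 := g.sy.w0 (n + 2 + i) t p.hI
    have hw21 := g.sy.w0 (n + 2 + (i + 1)) t p.hI
    have e1 : n + 1 + (i + 1 + 1) = n + 2 + (i + 1) := by ring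
    have e2 : n + (i + 1 + 1) = n + 2 + i := by ring
    rw [e1] at hL
    rw [e1, e2]
    have h9 : dd lam * bb lam C x n (i + 1) t ≤ dd lam * bb lam C x n i t := by gcongr
    have h3 : dd lam * (Real.exp (558 / 10000 * lam) * Real.exp (558 / 10000 * lam)) =
        Real.exp (-(3884 / 10000) * lam) := by
      rw [← Real.exp_add, dd, ← Real.exp_add]
      congr 1
      ring
    have h4 := tiny q 8 (by norm_num) (by norm_num) (α := -(3884 / 10000)) (by norm_num)
    calc N * (L (n + 2 + (i + 1)) * ((|x (n + 2 + (i + 1)) t| + w (n + 2 + (i + 1)) t +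
          |x (n + 2 + i) t| + w (n + 2 + i) t) * (w (n + 2 + (i + 1)) t + w (n + 2 + i) t)))
        ≤ N * (L (n + 2 + (i + 1)) * ((4 * 1) * (2 * (dd lam * bb lam C x n i t)))) := by
          gcongr
          · linarith
          · linarith
      _ = (8 * N * (dd lam * (Real.exp (558 / 10000 * lam) * Real.exp (558 / 10000 * lam)))) *
          L (n + 2 + (i + 1)) * bb lam C x n (i + 1 + 1) t := by
          rw [bb_prev lam C x n i, bb_prev lam C x n (i + 1)]; ring
      _ = (8 * N * Real.exp (-(3884 / 10000) * lam)) *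
          L (n + 2 + (i + 1)) * bb lam C x n (i + 1 + 1) t := by rw [h3]
      _ ≤ _ := by gcongr

/-- the additional term -/
lemma addt_le {j : ℕ} (H : Hj κ lam C x w n j t)
    (hY : bb lam C x n j t ≤ √(Yk κ x w (n + 2 + j) t)) :
    addt κ lam N Q L x w (n + 2 + j) t ≤
      1 / 10 ^ 15 * L (n + 1 + j) * Yk κ x w (n + 2 + j) t := by
  have q := g.q
  have hl := q.lamp
  have hL := q.Lp (n + 1 + j)
  have hLe := Lprev (n := n) g j
  have hb := bb_pos lam C x n j t
  have hz := zprev g p H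
  have hA := Aj_le g p j H
  have hA0 := g.A_nonneg p.hI (n + 2 + j)
  have hU := Uj_le g p j H
  have hU0 := U_nonneg (x := x) q (n + 2 + j) t
  have hw0 := g.sy.w0 (n + 1 + j) t p.hI
  have hw0' := g.sy.w0 (n + 2 + j) t p.hI
  have hN := q.N_one
  have hQ := g.Q1
  have hη := g.η0
  have hlam1 := q.lam1
  have hd := dd_pos lam
  have hdt := dd_le q
  have hY0 := g.Y_nonneg (n + 2 + j) t
  set Y := Yk κ x w (n + 2 + j) t with hYdef
  have hs0 := Real.sqrt_nonneg Y
  have hss : √Y * √Y = Y := Real.mul_self_sqrt hY0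
  have hW := g.W_of' p.hI p.zhi p.W (n + 2 + j)
  rw [bh_tail] at hW
  have hW0 := Real.sqrt_nonneg (Wk κ w (n + 2 + j) t)
  have hNη := g.Nη
  have hQNη := g.QNη
  rw [addt, if_neg (by omega : ¬ n + 2 + j = 0), show n + 2 + j - 1 = n + 1 + j by omega]
  -- the first term
  have hNη' : N * η ≤ Real.exp (-(14 / 10) * lam) := by
    refine hNη.trans ?_
    have := Real.exp_pos (-(14 / 10) * lam)
    nlinarith
  have t1 : 2 * N * (Ut L x (n + 2 + j) t + L (n + 2 + j)) * (√Y * √(Wk κ w (n + 2 + j) t)) ≤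
      1 / 10 ^ 20 * L (n + 1 + j) * Y := by
    have k1 := tiny2 q 13 (by norm_num) (by norm_num) (α := -(14 / 10)) (by norm_num)
    have k2 : Ut L x (n + 2 + j) t + L (n + 2 + j) ≤ 3 * (lam * L (n + 1 + j)) := by
      rw [hLe]
      have : L (n + 1 + j) ≤ lam * L (n + 1 + j) := by nlinarith
      linarith
    calc 2 * N * (Ut L x (n + 2 + j) t + L (n + 2 + j)) * (√Y * √(Wk κ w (n + 2 + j) t))
        ≤ 2 * N * (3 * (lam * L (n + 1 + j))) *
          (√Y * (2002 / 1000 * η * bb lam C x n j t)) := by gcongr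
      _ ≤ 2 * N * (3 * (lam * L (n + 1 + j))) * (√Y * (2002 / 1000 * η * √Y)) := by gcongr
      _ = 12012 / 1000 * lam * (N * η) * L (n + 1 + j) * (√Y * √Y) := by ring
      _ = 12012 / 1000 * lam * (N * η) * L (n + 1 + j) * Y := by rw [hss]
      _ ≤ 13 * lam * Real.exp (-(14 / 10) * lam) * L (n + 1 + j) * Y := by
          gcongr
          norm_num
      _ ≤ _ := by gcongr
  -- the second term
  have t2 : 2 * N * (L (n + 1 + j) * At lam x w (n + 2 + j) t *
      (|x (n + 1 + j) t| + w (n + 1 + j) t)) * √(Wk κ w (n + 2 + j) t) ≤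
      1 / 10 ^ 20 * L (n + 1 + j) * Y := by
    have k1 := tiny q 17 (by norm_num) (by norm_num) (α := -(13 / 10)) (by norm_num)
    have k2 : N * η * Real.exp (598 / 10000 * lam) ≤ N * Real.exp (-(13 / 10) * lam) := by
      have k3 := Real.exp_pos (598 / 10000 * lam)
      calc N * η * Real.exp (598 / 10000 * lam)
          ≤ Real.exp (-(14 / 10) * lam) * Real.exp (598 / 10000 * lam) := by gcongr
        _ = Real.exp ((-(14 / 10) + 598 / 10000) * lam) := ee _ _ _
        _ ≤ Real.exp (-(13 / 10) * lam) := by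
            apply Real.exp_le_exp.2
            apply mul_le_mul_of_nonneg_right _ hl.le
            norm_num
        _ ≤ _ := by
            have := Real.exp_pos (-(13 / 10) * lam)
            nlinarith
    have k4 : bb lam C x n j t * bb lam C x n j t ≤ Y := by
      rw [← hss]
      gcongr
    calc 2 * N * (L (n + 1 + j) * At lam x w (n + 2 + j) t *
        (|x (n + 1 + j) t| + w (n + 1 + j) t)) * √(Wk κ w (n + 2 + j) t)
        ≤ 2 * N * (L (n + 1 + j) * 2 *
          (2 * Real.exp (598 / 10000 * lam) * bb lam C x n j t)) *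
          (2002 / 1000 * η * bb lam C x n j t) := by gcongr
      _ = 16016 / 1000 * (N * η * Real.exp (598 / 10000 * lam)) * L (n + 1 + j) *
          (bb lam C x n j t * bb lam C x n j t) := by ring
      _ ≤ 16016 / 1000 * (N * Real.exp (-(13 / 10) * lam)) * L (n + 1 + j) * Y := by gcongr
      _ ≤ (17 * N * Real.exp (-(13 / 10) * lam)) * L (n + 1 + j) * Y := by
          have := Real.exp_pos (-(13 / 10) * lam)
          have k5 : 0 ≤ N * Real.exp (-(13 / 10) * lam) * L (n + 1 + j) * Y := by positivity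
          linarith
      _ ≤ _ := by gcongr
  -- the third term
  have t3 : (if (n + 1 + j) % 2 = 0 then
      Q * N * L (n + 1 + j) * (w (n + 1 + j) t * w (n + 2 + j) t) else 0) ≤
      1 / 10 ^ 20 * L (n + 1 + j) * Y := by
    split_ifs
    · have k1 := tiny q 4 (by norm_num) (by norm_num) (α := -(18 / 10)) (by norm_num)
      have k4 : bb lam C x n j t * bb lam C x n j t ≤ Y := by
        rw [← hss]
        gcongr
      have k5 := p.W (n + 1 + j)
      have k6 := p.W (n + 2 + j)
      have k7 := bh_succ (C := C) (x := x) (n := n) (t := t) q (n + 1 + j)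
      rw [show n + 1 + j + 1 = n + 2 + j by ring, bh_tail] at k7
      rw [bh_tail] at k6
      have k8 : w (n + 1 + j) t ≤ 2 * η * (Real.exp (6 / 100 * lam) * bb lam C x n j t) :=
        k5.trans (by gcongr)
      have k9 : Real.exp (-(19 / 10) * lam) * Real.exp (6 / 100 * lam) ≤
          N * Real.exp (-(18 / 10) * lam) := by
        rw [ee]
        calc Real.exp ((-(19 / 10) + 6 / 100) * lam) ≤ Real.exp (-(18 / 10) * lam) := by
              apply Real.exp_le_exp.2
              apply mul_le_mul_of_nonneg_right _ hl.le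
              norm_num
          _ ≤ _ := by
            have := Real.exp_pos (-(18 / 10) * lam)
            nlinarith
      calc Q * N * L (n + 1 + j) * (w (n + 1 + j) t * w (n + 2 + j) t)
          ≤ Q * N * L (n + 1 + j) * ((2 * η * (Real.exp (6 / 100 * lam) * bb lam C x n j t)) *
            (2 * η * bb lam C x n j t)) := by gcongr
        _ = 4 * ((Q * N * η ^ 2) * Real.exp (6 / 100 * lam)) * L (n + 1 + j) *
            (bb lam C x n j t * bb lam C x n j t) := by ring
        _ ≤ 4 * (Real.exp (-(19 / 10) * lam) * Real.exp (6 / 100 * lam)) * L (n + 1 + j) *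
            Y := by gcongr
        _ ≤ 4 * (N * Real.exp (-(18 / 10) * lam)) * L (n + 1 + j) * Y := by gcongr
        _ = (4 * N * Real.exp (-(18 / 10) * lam)) * L (n + 1 + j) * Y := by ring
        _ ≤ _ := by gcongr
    · positivity
  have hp : 0 ≤ L (n + 1 + j) * Y := by positivity
  linarith

/-- the rates -/
lemma rate_le (j : ℕ) (H : Hj κ lam C x w n j t) :
    1001 / 1000 * Ut L x (n + 2 + j) t + N * Uw L w (n + 2 + j) t
      - 8999 / 10000 * (L (n + 2 + j) / lam) ≤
    L (n + 1) * (zz C x n t * max (zz C x n t - 8952 / 10000) 0) - 1 / 10 ^ 4 * L (n + 1 + j) := by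
  have q := g.q
  have hl := q.lamp
  have hz0 : 0 < zz C x n t := by
    have := p.zlo
    have := q.Cp n
    linarith
  have h1 := NW_le g p j
  have hL1 := q.Lp (n + 1)
  have hmax : 0 ≤ max (zz C x n t - 8952 / 10000) 0 := le_max_right _ _
  have e1 : L (n + 2 + j) / lam = L (n + 1 + j) := by
    rw [Lprev g, mul_div_cancel_left₀ _ hl.ne']
  rw [e1]
  rcases j with _ | i
  · have h2 := U2_le g p
    rw [add_zero, add_zero] at *
    have h3 : 1001 / 1000 * zz C x n t - 8999 / 10000 + 2 / 10 ^ 4 ≤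
        zz C x n t * max (zz C x n t - 8952 / 10000) 0 := by
      rcases le_total (zz C x n t) (8952 / 10000) with h | h
      · have : 0 ≤ zz C x n t * max (zz C x n t - 8952 / 10000) 0 := by positivity
        linarith
      · rw [max_eq_left (by linarith)]
        nlinarith [sq_nonneg (zz C x n t - 9481 / 10000)]
    have h4 : L (n + 1) * (1001 / 1000 * zz C x n t - 8999 / 10000 + 2 / 10 ^ 4) ≤
        L (n + 1) * (zz C x n t * max (zz C x n t - 8952 / 10000) 0) := by gcongr
    linarith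
  · have h2 := Uj1_le g p i H
    have hL := q.Lp (n + 1 + (i + 1))
    have h3 : 0 ≤ L (n + 1) * (zz C x n t * max (zz C x n t - 8952 / 10000) 0) := by positivity
    linarith

end lev

end Pool.Agent.Y574.SK
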